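import Pool.Agent.Lib_helper67.GKC.Q
import Pool.Agent.Lib_helper62.PH.WK

/-!
Words in letters `x i` with coefficients in a subspace `K` of a Hopf algebra: every word is
coinvariant modulo the smaller words times `K`, if the letters are so.
-/

set_option autoImplicit false

universe u v

namespace Pool.Agent.WK

open TensorProduct Pool.Agent.GK Pool.Agent.GKC

section hopf
variable (k : Type u) [Field k] {H : Type v} [Ring H] [HopfAlgebra k H]

/-- the words are in the powers of `C` -/
theorem we_mem {C : Submodule k H} {e m : ℕ} {x : Fin m → H} (hx : ∀ i, x i ∈ C ^ e)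
    (w : List (Fin m)) : wdK x w ∈ C ^ (e * w.length) := by
  induction w with
  | nil =>
    have h : wdK x ([] : List (Fin m)) = 1 := by simp [wdK]
    rw [h, List.length_nil, mul_zero, pow_zero]
    exact Submodule.one_le.1 le_rfl
  | cons j v ih =>
    have h : wdK x (j :: v) = x j * wdK x v := by simp [wdK]
    rw [h, List.length_cons, show e * (v.length + 1) = e + e * v.length by ring, pow_add]
    exact Submodule.mul_mem_mul (hx j) ih

/-- a tensor with all left slices in `N` -/
theorem we_slice (N : Submodule k H) (t : H ⊗[k] H)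
    (ht : ∀ f : Module.Dual k H, TensorProduct.rid k H (LinearMap.lTensor H f t) ∈ N)
    (y : H) (f : Module.Dual k H) :
    TensorProduct.rid k H (LinearMap.lTensor H f (t * Coalgebra.comul (R := k) y)) ∈
      N * Submodule.span k (Set.range fun g : Module.Dual k H => FLAG_L k g y) := by
  obtain ⟨p, hp⟩ := N.subtype.exists_leftInverse_of_injective N.ker_subtype
  set ρ : H →ₗ[k] H := N.subtype ∘ₗ p with hρ
  have hρD : ∀ x ∈ N, ρ x = x := by
    intro x hx
    have := LinearMap.congr_fun hp ⟨x, hx⟩
    simp only [LinearMap.comp_apply, Submodule.subtype_apply, LinearMap.id_apply] at this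
    simp [hρ, this]
  have hρm : ∀ x, ρ x ∈ N := fun x => by simp [hρ]
  have h1 : LinearMap.rTensor H ρ t = t := by
    rw [← sub_eq_zero]
    apply FLAG_sepL k
    intro f
    have e : ∀ s : H ⊗[k] H, TensorProduct.rid k H (LinearMap.lTensor H f (LinearMap.rTensor H ρ s))
        = ρ (TensorProduct.rid k H (LinearMap.lTensor H f s)) := by
      intro s
      induction s with
      | zero => simp
      | tmul p q => simp
      | add s t hs ht => simp only [map_add, hs, ht]
    rw [map_sub, map_sub, e, hρD _ (ht f), sub_self]
  rw [← h1]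
  have h2 : ∀ (a b : H) (s : H ⊗[k] H),
      TensorProduct.rid k H (LinearMap.lTensor H f ((a ⊗ₜ[k] b) * s)) =
      a * TensorProduct.rid k H (LinearMap.lTensor H (f ∘ₗ LinearMap.mulLeft k b) s) := by
    intro a b s
    induction s with
    | zero => simp
    | tmul c d => simp
    | add s t hs ht => simp only [map_add, mul_add, hs, ht]
  have h3 : ∀ s : H ⊗[k] H, TensorProduct.rid k H (LinearMap.lTensor H f
      (LinearMap.rTensor H ρ s * Coalgebra.comul (R := k) y)) ∈
      N * Submodule.span k (Set.range fun g : Module.Dual k H => FLAG_L k g y) := by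
    intro s
    induction s with
    | zero => simp
    | tmul a b =>
      rw [LinearMap.rTensor_tmul, h2]
      exact Submodule.mul_mem_mul (hρm a) (Submodule.subset_span ⟨f ∘ₗ LinearMap.mulLeft k b, rfl⟩)
    | add s t hs ht =>
      simp only [map_add, add_mul]
      exact Submodule.add_mem _ hs ht
  exact h3 t

/-- `Δ(x y)` modulo `N * (all slices of y)` if `Δ(x) = x ⊗ 1` modulo `N ⊗ H` -/
theorem we_prod (N : Submodule k H) {x : H}
    (hx : ∀ f : Module.Dual k H, FLAG_L k f x - f 1 • x ∈ N) (y : H) (f : Module.Dual k H) :
    FLAG_L k f (x * y) - x * FLAG_L k f y ∈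
      N * Submodule.span k (Set.range fun g : Module.Dual k H => FLAG_L k g y) := by
  have h2 := we_slice k N
    (Coalgebra.comul (R := k) x - x ⊗ₜ[k] (1 : H)) (by
      intro g
      have h3 := hx g
      rw [FLAG_L_apply] at h3
      rw [map_sub, map_sub]
      simpa using h3) y f
  have h4 : ∀ s : H ⊗[k] H, TensorProduct.rid k H (LinearMap.lTensor H f
      ((x ⊗ₜ[k] (1 : H)) * s)) = x * TensorProduct.rid k H (LinearMap.lTensor H f s) := by
    intro s
    induction s with
    | zero => simp
    | tmul c d => simp
    | add s t hs ht => simp only [map_add, mul_add, hs, ht]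
  rwa [_root_.sub_mul, map_sub, map_sub, h4, ← Bialgebra.comul_mul, ← FLAG_L_apply,
    ← FLAG_L_apply] at h2

/-- words of length at most `n` times `K` is stable under `K` -/
private theorem we_K_W {K : Submodule k H} (hKK : K * K ≤ K) {m : ℕ} {x : Fin m → H}
    (hstb : K * Submodule.span k (Set.range x) ≤ K ⊔ Submodule.span k (Set.range x) * K)
    (n : ℕ) : K * WlK k K x n ≤ WlK k K x n := by
  calc K * WlK k K x n = (K * Submodule.span k (wdK x '' {v | v.length ≤ n})) * K := by
        rw [WlK, mul_assoc]
    _ ≤ WlK k K x n * K := mul_le_mul' (wk_K_span k hstb n) le_rfl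
    _ = Submodule.span k (wdK x '' {v | v.length ≤ n}) * (K * K) := by rw [WlK, mul_assoc]
    _ ≤ _ := mul_le_mul' le_rfl hKK

/-- the words are coinvariant modulo smaller words -/
theorem we_eig {K : Submodule k H} (hK1 : (1 : H) ∈ K) (hKK : K * K ≤ K) {m : ℕ} {x : Fin m → H}
    (hstb : K * Submodule.span k (Set.range x) ≤ K ⊔ Submodule.span k (Set.range x) * K)
    (heig : ∀ i, ∀ f : Module.Dual k H, FLAG_L k f (x i) - f 1 • x i ∈
      K ⊔ Submodule.span k (x '' {l | l < i}) * K)
    (w : List (Fin m)) (f : Module.Dual k H) :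
    FLAG_L k f (wdK x w) - f 1 • wdK x w ∈ NwK k K x w := by
  have hK : ∀ A : Submodule k H, A ≤ A * K := fun A => by
    calc A = A * 1 := (mul_one A).symm
      _ ≤ _ := mul_le_mul' le_rfl (Submodule.one_le.2 hK1)
  induction w generalizing f with
  | nil =>
    have h : wdK x ([] : List (Fin m)) = 1 := by simp [wdK]
    rw [h, FLAG_L_one, sub_self]
    exact Submodule.zero_mem _
  | cons j v ih =>
    have hc : wdK x (j :: v) = x j * wdK x v := by simp [wdK]
    set y := wdK x v with hy
    -- all slices of `x_v` are words of length at most `|v|`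
    have hNw : NwK k K x v ≤ WlK k K x v.length :=
      mul_le_mul' (Submodule.span_mono (Set.image_mono fun u hu => by
        rcases List.shortlex_def.1 hu with h | ⟨h, _⟩
        · exact h.le
        · exact h.le)) le_rfl
    have hyW : y ∈ WlK k K x v.length :=
      hK _ (Submodule.subset_span ⟨v, le_refl v.length, rfl⟩)
    have hW : ∀ g : Module.Dual k H, FLAG_L k g y ∈ WlK k K x v.length := by
      intro g
      have h2 := Submodule.add_mem _ (hNw (ih g)) (Submodule.smul_mem _ (g 1) hyW)
      rwa [sub_add_cancel] at h2
    -- `(K + ∑_{l < j} x_l K) W ≤ NwK`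
    have hN : (K ⊔ Submodule.span k (x '' {l | l < j}) * K) * WlK k K x v.length ≤
        NwK k K x (j :: v) := by
      rw [Submodule.sup_mul, mul_assoc]
      refine sup_le ((we_K_W k hKK hstb _).trans ?_)
        ((mul_le_mul' le_rfl (we_K_W k hKK hstb _)).trans ?_)
      · refine mul_le_mul' (Submodule.span_mono (Set.image_mono fun u hu => ?_)) le_rfl
        refine List.Shortlex.of_length_lt ?_
        have hu' : u.length ≤ v.length := hu
        rw [List.length_cons]
        omega
      · rw [WlK, NwK, ← mul_assoc]
        refine mul_le_mul' ?_ le_rfl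
        rw [Submodule.span_mul_span, Submodule.span_le]
        rintro _ ⟨_, ⟨l, hl, rfl⟩, _, ⟨u, hu, rfl⟩, rfl⟩
        refine Submodule.subset_span ⟨l :: u, ?_, by simp [wdK]⟩
        have hu' : u.length ≤ v.length := hu
        have hl' : l < j := hl
        change List.Shortlex (· < ·) (l :: u) (j :: v)
        rw [List.shortlex_def]
        simp only [List.length_cons]
        rcases hu'.lt_or_eq with h | h
        · left; omega
        · right
          exact ⟨by omega, .rel hl'⟩
    -- the coproduct of the product
    have h1 : FLAG_L k f (x j * y) - x j * FLAG_L k f y ∈ NwK k K x (j :: v) := by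
      have h7 : Submodule.span k (Set.range fun g : Module.Dual k H => FLAG_L k g y) ≤
          WlK k K x v.length := by
        rw [Submodule.span_le]
        rintro _ ⟨g, rfl⟩
        exact hW g
      exact hN (mul_le_mul' le_rfl h7 (we_prod k _ (heig j) y f))
    have h5 : x j * (FLAG_L k f y - f 1 • y) ∈ NwK k K x (j :: v) := by
      have h6 : Submodule.span k {x j} * NwK k K x v ≤ NwK k K x (j :: v) := by
        rw [NwK, NwK, ← mul_assoc]
        refine mul_le_mul' ?_ le_rfl
        rw [Submodule.span_mul_span, Submodule.span_le]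
        rintro _ ⟨_, rfl, _, ⟨u, hu, rfl⟩, rfl⟩
        exact Submodule.subset_span ⟨j :: u, List.Shortlex.cons hu, by simp [wdK]⟩
      exact h6 (Submodule.mul_mem_mul (Submodule.subset_span rfl) (ih f))
    rw [hc]
    have h6 := Submodule.add_mem _ h1 h5
    have e : FLAG_L k f (x j * y) - f 1 • (x j * y) =
        FLAG_L k f (x j * y) - x j * FLAG_L k f y + x j * (FLAG_L k f y - f 1 • y) := by
      rw [mul_sub, mul_smul_comm]
      abel
    rw [e]
    exact h6

end hopf

end Pool.Agent.WK
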